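import Pool.Agent.Helper14.LE.Stmts2

/-!
# MP_08fe4e_an, module A3: abstract saddle point theorem
-/

open MeasureTheory Set Filter Topology InnerProductSpace

noncomputable section

namespace LEP
namespace A3aux

theorem tangent {x y s : ℝ} (hx : 0 < x) (hy : 0 < y) (hs : 1 ≤ s) :
    x ^ s + s * x ^ (s - 1) * (y - x) ≤ y ^ s := by
  have h1 : 1 + s * (y / x - 1) ≤ (1 + (y / x - 1)) ^ s :=
    one_add_mul_self_le_rpow_one_add (by have := div_pos hy hx; linarith) hs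
  have h2 : (1 + (y / x - 1)) = y / x := by ring
  rw [h2, Real.div_rpow hy.le hx.le] at h1
  have h3 : 0 < x ^ s := Real.rpow_pos_of_pos hx s
  have h4 : x ^ (s - 1) = x ^ s / x := by rw [Real.rpow_sub hx, Real.rpow_one]
  rw [h4]
  rw [le_div_iff₀ h3] at h1
  have h5 : x ^ s + s * (x ^ s / x) * (y - x) = (1 + s * (y / x - 1)) * x ^ s := by
    field_simp
  linarith

theorem slope_le {x y s M m : ℝ} (hm : 0 < m) (hy : m ≤ y) (hxy : y ≤ x) (hyM : y ≤ M)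
    (hM : 1 ≤ M) (hs : 1 ≤ s) (hs2 : s ≤ 2) :
    x ^ (s - 1) - y ^ (s - 1) ≤ (s - 1) * (M / m) * (x - y) := by
  have hy0 : 0 < y := lt_of_lt_of_le hm hy
  have hx0 : 0 < x := lt_of_lt_of_le hy0 hxy
  have h1 : (1 + (x / y - 1)) ^ (s - 1) ≤ 1 + (s - 1) * (x / y - 1) :=
    rpow_one_add_le_one_add_mul_self (by have := div_pos hx0 hy0; linarith) (by linarith)
      (by linarith)
  have h2 : (1 + (x / y - 1)) = x / y := by ring
  rw [h2, Real.div_rpow hx0.le hy0.le] at h1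
  have h3 : 0 < y ^ (s - 1) := Real.rpow_pos_of_pos hy0 _
  rw [div_le_iff₀ h3] at h1
  have h4 : y ^ (s - 1) ≤ M := by
    calc y ^ (s - 1) ≤ M ^ (s - 1) := Real.rpow_le_rpow hy0.le hyM (by linarith)
      _ ≤ M ^ (1 : ℝ) := Real.rpow_le_rpow_of_exponent_le hM (by linarith)
      _ = M := Real.rpow_one M
  have h5 : x ^ (s - 1) - y ^ (s - 1) ≤ (s - 1) * (x - y) * (y ^ (s - 1) / y) := by
    have : (1 + (s - 1) * (x / y - 1)) * y ^ (s - 1) =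
        y ^ (s - 1) + (s - 1) * (x - y) * (y ^ (s - 1) / y) := by
      field_simp
    linarith
  have h6 : y ^ (s - 1) / y ≤ M / m := by
    exact div_le_div₀ (by linarith) h4 hm hy
  have h7 : (s - 1) * (x - y) * (y ^ (s - 1) / y) ≤ (s - 1) * (x - y) * (M / m) :=
    mul_le_mul_of_nonneg_left h6 (mul_nonneg (by linarith) (by linarith))
  nlinarith [h5, h7]

theorem slope_mul {x y s M m : ℝ} (hm : 0 < m) (hx : m ≤ x) (hy : m ≤ y) (hxM : x ≤ M)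
    (hyM : y ≤ M) (hM : 1 ≤ M) (hs : 1 ≤ s) (hs2 : s ≤ 2) :
    (x ^ (s - 1) - y ^ (s - 1)) * (x - y) ≤ (s - 1) * (M / m) * (x - y) ^ 2 := by
  rcases le_total y x with h | h
  · have := slope_le hm hy h hyM hM hs hs2
    have h2 : 0 ≤ x - y := by linarith
    nlinarith [mul_le_mul_of_nonneg_right this h2]
  · have := slope_le hm hx h hxM hM hs hs2
    have h2 : 0 ≤ y - x := by linarith
    nlinarith [mul_le_mul_of_nonneg_right this h2]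

variable {H : Type} [NormedAddCommGroup H] [InnerProductSpace ℝ H]

theorem Es_cont {V : H → H} {Es : H → ℝ} (hV : Continuous V)
    (hsub : ∀ h h', Es h + ⟪V h, h' - h⟫_ℝ ≤ Es h') : Continuous Es := by
  rw [continuous_iff_continuousAt]
  intro h
  have h1 : Tendsto (fun h' => Es h + ⟪V h, h' - h⟫_ℝ) (𝓝 h) (𝓝 (Es h)) := by
    have : Continuous (fun h' => Es h + ⟪V h, h' - h⟫_ℝ) := by fun_prop
    have h2 := this.tendsto h
    simpa using h2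
  have h2 : Tendsto (fun h' => Es h + ⟪V h', h' - h⟫_ℝ) (𝓝 h) (𝓝 (Es h)) := by
    have : Continuous (fun h' => Es h + ⟪V h', h' - h⟫_ℝ) := by fun_prop
    have h2 := this.tendsto h
    simpa using h2
  refine tendsto_of_tendsto_of_tendsto_of_le_of_le h1 h2 (fun h' => hsub h h') (fun h' => ?_)
  have := hsub h' h
  have h3 : ⟪V h', h - h'⟫_ℝ = - ⟪V h', h' - h⟫_ℝ := by
    rw [← inner_neg_right, neg_sub]
  simp only
  linarith

/-- The function `Φ`. -/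
def Ph (Es : H → ℝ) (s : ℝ) (k : H × H) (m : ℝ × ℝ) : ℝ :=
  (m.1 ^ s + m.2 ^ s) / s - Es (m.1 • k.1 - m.2 • k.2)

theorem Ph_cont {Es : H → ℝ} (hE : Continuous Es) {s : ℝ} (hs : 0 ≤ s) :
    Continuous (fun q : (H × H) × (ℝ × ℝ) => Ph Es s q.1 q.2) := by
  unfold Ph
  have h1 : Continuous (fun q : (H × H) × (ℝ × ℝ) => q.2.1 ^ s) :=
    Continuous.rpow_const (by fun_prop) (fun _ => Or.inr hs)
  have h2 : Continuous (fun q : (H × H) × (ℝ × ℝ) => q.2.2 ^ s) :=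
    Continuous.rpow_const (by fun_prop) (fun _ => Or.inr hs)
  have h3 : Continuous (fun q : (H × H) × (ℝ × ℝ) => Es (q.2.1 • q.1.1 - q.2.2 • q.1.2)) :=
    hE.comp (by fun_prop)
  exact ((h1.add h2).div_const s).sub h3

/-- One sided first order condition, to the right. -/
theorem foc_right {V : H → H} {Es : H → ℝ} (hV : Continuous V)
    (hsub : ∀ h h', Es h + ⟪V h, h' - h⟫_ℝ ≤ Es h') {h k : H} {m s b : ℝ} (hm : 0 < m)
    (hs : 1 ≤ s) (hb : 0 < b)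
    (hmax : ∀ a ∈ Ioo 0 b, ((m + a) ^ s - m ^ s) / s ≤ Es (h + a • k) - Es h) :
    m ^ (s - 1) ≤ ⟪V h, k⟫_ℝ := by
  have hs0 : 0 < s := by linarith
  have key : ∀ a ∈ Ioo 0 b, m ^ (s - 1) ≤ ⟪V (h + a • k), k⟫_ℝ := by
    intro a ha
    have h1 := hmax a ha
    have h2 := hsub (h + a • k) h
    have h3 : ⟪V (h + a • k), h - (h + a • k)⟫_ℝ = - (a * ⟪V (h + a • k), k⟫_ℝ) := by
      rw [sub_add_cancel_left, inner_neg_right, inner_smul_right]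
    have h4 := tangent hm (show 0 < m + a by linarith [ha.1]) hs
    have h5 : a * m ^ (s - 1) ≤ ((m + a) ^ s - m ^ s) / s := by
      rw [le_div_iff₀ hs0]
      have : m + a - m = a := by ring
      rw [this] at h4
      nlinarith
    have h6 : a * m ^ (s - 1) ≤ a * ⟪V (h + a • k), k⟫_ℝ := by linarith
    exact le_of_mul_le_mul_left h6 ha.1
  have hlim : Tendsto (fun a : ℝ => ⟪V (h + a • k), k⟫_ℝ) (𝓝[>] 0) (𝓝 ⟪V h, k⟫_ℝ) := by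
    have hc : Continuous (fun a : ℝ => ⟪V (h + a • k), k⟫_ℝ) := by fun_prop
    have := hc.tendsto 0
    simp only [zero_smul, add_zero] at this
    exact this.mono_left nhdsWithin_le_nhds
  refine ge_of_tendsto hlim ?_
  filter_upwards [Ioo_mem_nhdsGT hb] with a ha
  exact key a ha

/-- One sided first order condition, to the left. -/
theorem foc_left {V : H → H} {Es : H → ℝ} (hV : Continuous V)
    (hsub : ∀ h h', Es h + ⟪V h, h' - h⟫_ℝ ≤ Es h') {h k : H} {m s b : ℝ}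
    (hs : 1 ≤ s) (hb : 0 < b) (hbm : b ≤ m)
    (hmax : ∀ a ∈ Ioo 0 b, Es h - Es (h - a • k) ≤ (m ^ s - (m - a) ^ s) / s) :
    ⟪V h, k⟫_ℝ ≤ m ^ (s - 1) := by
  have hs0 : 0 < s := by linarith
  have hm : 0 < m := by linarith
  have key : ∀ a ∈ Ioo 0 b, ⟪V (h - a • k), k⟫_ℝ ≤ m ^ (s - 1) := by
    intro a ha
    have h1 := hmax a ha
    have h2 := hsub (h - a • k) h
    have h3 : ⟪V (h - a • k), h - (h - a • k)⟫_ℝ = (a * ⟪V (h - a • k), k⟫_ℝ) := by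
      rw [sub_sub_cancel, inner_smul_right]
    have h4 := tangent hm (show 0 < m - a by linarith [ha.1, ha.2]) hs
    have h5 : (m ^ s - (m - a) ^ s) / s ≤ a * m ^ (s - 1) := by
      rw [div_le_iff₀ hs0]
      have : m - a - m = -a := by ring
      rw [this] at h4
      nlinarith
    have h6 : a * ⟪V (h - a • k), k⟫_ℝ ≤ a * m ^ (s - 1) := by linarith
    exact le_of_mul_le_mul_left h6 ha.1
  have hlim : Tendsto (fun a : ℝ => ⟪V (h - a • k), k⟫_ℝ) (𝓝[>] 0) (𝓝 ⟪V h, k⟫_ℝ) := by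
    have hc : Continuous (fun a : ℝ => ⟪V (h - a • k), k⟫_ℝ) := by fun_prop
    have := hc.tendsto 0
    simp only [zero_smul, sub_zero] at this
    exact this.mono_left nhdsWithin_le_nhds
  refine le_of_tendsto hlim ?_
  filter_upwards [Ioo_mem_nhdsGT hb] with a ha
  exact key a ha

/-- Existence of the minimax pair. -/
theorem exists_minimax {Es : H → ℝ} (hE : Continuous Es) {s : ℝ} (hs : 0 ≤ s)
    {K : Set (H × H)} (hK : IsCompact K) (hKn : K.Nonempty) {B : Set (ℝ × ℝ)} (hB : IsCompact B)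
    (hBn : B.Nonempty) :
    ∃ ko ∈ K, ∀ k ∈ K, ∃ m ∈ B, (∀ m' ∈ B, Ph Es s k m' ≤ Ph Es s k m) ∧
      ∀ m' ∈ B, Ph Es s ko m' ≤ Ph Es s k m := by
  have hPh := Ph_cont hE hs (H := H)
  have hc : Continuous (fun k : H × H => sSup (Ph Es s k '' B)) :=
    IsCompact.continuous_sSup hB hPh
  obtain ⟨ko, hko, hmin⟩ := hK.exists_isMinOn hKn hc.continuousOn
  refine ⟨ko, hko, fun k hk => ?_⟩
  have hck : ∀ k : H × H, Continuous (Ph Es s k) := fun k =>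
    hPh.comp (by fun_prop : Continuous (fun m : ℝ × ℝ => (k, m)))
  obtain ⟨m, hm, hmax⟩ := hB.exists_isMaxOn hBn (hck k).continuousOn
  have hbdd : ∀ k : H × H, BddAbove (Ph Es s k '' B) := fun k =>
    (hB.image (hck k)).bddAbove
  have h1 : sSup (Ph Es s k '' B) ≤ Ph Es s k m := by
    refine csSup_le (hBn.image _) ?_
    rintro _ ⟨m', hm', rfl⟩
    exact hmax hm'
  refine ⟨m, hm, fun m' hm' => hmax hm', fun m' hm' => ?_⟩
  calc Ph Es s ko m' ≤ sSup (Ph Es s ko '' B) := le_csSup (hbdd ko) ⟨m', hm', rfl⟩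
    _ ≤ sSup (Ph Es s k '' B) := hmin hk
    _ ≤ _ := h1

/-- Interior first order conditions at a maximiser over the box. -/
theorem interior {V : H → H} {Es : H → ℝ} (hV : Continuous V)
    (hsub : ∀ h h', Es h + ⟪V h, h' - h⟫_ℝ ≤ Es h') {c C mlo mhi η s : ℝ} (hc : 0 < c)
    (hC : 0 < C) (hmlo : mlo = 1 / (8 * C ^ 2)) (hmhi : 11 + mlo + 10 * c ≤ mhi)
    (hη : 0 < η) (hη1 : η ≤ 1 / 10) (hη2 : 2 * C * η ≤ 1 / 8) (hs : 1 < s) (hs2 : s ≤ 5 / 4)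
    (hs3 : 3 / 4 ≤ mlo ^ (s - 1)) (hVη : ∀ h, ‖V h - h‖ ≤ η)
    (hEs : ∀ h, Es h ≤ ‖h‖ ^ 2 / 2 + η * (‖h‖ + 1))
    {k : H × H} (hk1 : ‖k.1‖ ≤ 2 * C) (hk2 : ‖k.2‖ ≤ 2 * C) (hk12 : 0 ≤ ⟪k.1, k.2⟫_ℝ)
    {m : ℝ × ℝ} (hm : m ∈ Icc mlo mhi ×ˢ Icc mlo mhi)
    (hmax : ∀ m' ∈ Icc mlo mhi ×ˢ Icc mlo mhi, Ph Es s k m' ≤ Ph Es s k m)
    (hle : Ph Es s k m ≤ c) :
    m.1 ∈ Ioo mlo mhi ∧ m.2 ∈ Ioo mlo mhi ∧
      ⟪V (m.1 • k.1 - m.2 • k.2), k.1⟫_ℝ = m.1 ^ (s - 1) ∧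
      -⟪V (m.1 • k.1 - m.2 • k.2), k.2⟫_ℝ = m.2 ^ (s - 1) := by
  obtain ⟨k1, k2⟩ := k
  obtain ⟨m1, m2⟩ := m
  simp only [mem_prod, mem_Icc, mem_Ioo] at *
  obtain ⟨⟨h1l, h1h⟩, h2l, h2h⟩ := hm
  have hC2 : 0 < C ^ 2 := by positivity
  have hmlo0 : 0 < mlo := by rw [hmlo]; positivity
  have hmC : mlo * (4 * C ^ 2) = 1 / 2 := by rw [hmlo]; field_simp; norm_num
  have hm1 : 0 < m1 := by linarith
  have hm2 : 0 < m2 := by linarith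
  have hs0 : 0 < s := by linarith
  set h : H := m1 • k1 - m2 • k2 with hdef
  -- first order conditions
  have R1 : m1 < mhi → m1 ^ (s - 1) ≤ ⟪V h, k1⟫_ℝ := by
    intro hlt
    refine foc_right hV hsub hm1 hs.le (show 0 < mhi - m1 by linarith) ?_
    intro a ha
    have h1 := hmax (m1 + a, m2) ⟨⟨by simp only; linarith [ha.1], by simp only; linarith [ha.2]⟩,
      h2l, h2h⟩
    simp only [Ph] at h1
    have h3 : (m1 + a) • k1 - m2 • k2 = h + a • k1 := by rw [hdef, add_smul]; abel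
    rw [h3, ← hdef] at h1
    have h4 : ((m1 + a) ^ s - m1 ^ s) / s =
      ((m1 + a) ^ s + m2 ^ s) / s - (m1 ^ s + m2 ^ s) / s := by ring
    rw [h4]; linarith
  have R2 : m2 < mhi → m2 ^ (s - 1) ≤ ⟪V h, -k2⟫_ℝ := by
    intro hlt
    refine foc_right hV hsub hm2 hs.le (show 0 < mhi - m2 by linarith) ?_
    intro a ha
    have h1 := hmax (m1, m2 + a) ⟨⟨h1l, h1h⟩, by simp only; linarith [ha.1],
      by simp only; linarith [ha.2]⟩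
    simp only [Ph] at h1
    have h3 : m1 • k1 - (m2 + a) • k2 = h + a • (-k2) := by rw [hdef, add_smul, smul_neg]; abel
    rw [h3, ← hdef] at h1
    have h4 : ((m2 + a) ^ s - m2 ^ s) / s =
      (m1 ^ s + (m2 + a) ^ s) / s - (m1 ^ s + m2 ^ s) / s := by ring
    rw [h4]; linarith
  have L1 : mlo < m1 → ⟪V h, k1⟫_ℝ ≤ m1 ^ (s - 1) := by
    intro hlt
    refine foc_left hV hsub hs.le (show 0 < m1 - mlo by linarith) (by linarith) ?_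
    intro a ha
    have h1 := hmax (m1 - a, m2) ⟨⟨by simp only; linarith [ha.2], by simp only; linarith [ha.1]⟩,
      h2l, h2h⟩
    simp only [Ph] at h1
    have h3 : (m1 - a) • k1 - m2 • k2 = h - a • k1 := by rw [hdef, sub_smul]; abel
    rw [h3, ← hdef] at h1
    have h4 : (m1 ^ s - (m1 - a) ^ s) / s =
      (m1 ^ s + m2 ^ s) / s - ((m1 - a) ^ s + m2 ^ s) / s := by ring
    rw [h4]; linarith
  have L2 : mlo < m2 → ⟪V h, -k2⟫_ℝ ≤ m2 ^ (s - 1) := by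
    intro hlt
    refine foc_left hV hsub hs.le (show 0 < m2 - mlo by linarith) (by linarith) ?_
    intro a ha
    have h1 := hmax (m1, m2 - a) ⟨⟨h1l, h1h⟩, by simp only; linarith [ha.2],
      by simp only; linarith [ha.1]⟩
    simp only [Ph] at h1
    have h3 : m1 • k1 - (m2 - a) • k2 = h - a • (-k2) := by rw [hdef, sub_smul, smul_neg]; abel
    rw [h3, ← hdef] at h1
    have h4 : (m2 ^ s - (m2 - a) ^ s) / s =
      (m1 ^ s + m2 ^ s) / s - (m1 ^ s + (m2 - a) ^ s) / s := by ring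
    rw [h4]; linarith
  -- bounds for V h against k1, k2
  have hVh : ‖V h - h‖ ≤ η := hVη h
  have hin : ∀ u : H, ‖u‖ ≤ 2 * C → ⟪V h, u⟫_ℝ ≤ ⟪h, u⟫_ℝ + 1 / 8 := by
    intro u hu
    have h1 : ⟪V h - h, u⟫_ℝ ≤ ‖V h - h‖ * ‖u‖ := real_inner_le_norm _ _
    have h2 : ‖V h - h‖ * ‖u‖ ≤ η * (2 * C) := by
      apply mul_le_mul hVh hu (norm_nonneg _) hη.le
    rw [inner_sub_left] at h1
    nlinarith
  have hk1sq : ‖k1‖ ^ 2 ≤ 4 * C ^ 2 := by nlinarith [norm_nonneg k1]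
  have hk2sq : ‖k2‖ ^ 2 ≤ 4 * C ^ 2 := by nlinarith [norm_nonneg k2]
  have lo1 : mlo < m1 := by
    by_contra hcon
    have heq : m1 = mlo := le_antisymm (not_lt.mp hcon) h1l
    have h1 := R1 (by linarith)
    have h2 := hin k1 hk1
    have h3 : ⟪h, k1⟫_ℝ = m1 * ‖k1‖ ^ 2 - m2 * ⟪k1, k2⟫_ℝ := by
      rw [hdef, inner_sub_left, inner_smul_left, inner_smul_left, real_inner_self_eq_norm_sq,
        real_inner_comm]
      simp
    have h4 : m1 * ‖k1‖ ^ 2 ≤ 1 / 2 := by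
      rw [heq]
      calc mlo * ‖k1‖ ^ 2 ≤ mlo * (4 * C ^ 2) := mul_le_mul_of_nonneg_left hk1sq hmlo0.le
        _ = 1 / 2 := hmC
    have h5 : 0 ≤ m2 * ⟪k1, k2⟫_ℝ := mul_nonneg hm2.le hk12
    rw [heq] at h1
    linarith
  have lo2 : mlo < m2 := by
    by_contra hcon
    have heq : m2 = mlo := le_antisymm (not_lt.mp hcon) h2l
    have h1 := R2 (by linarith)
    have h2 := hin (-k2) (by rwa [norm_neg])
    have h3 : ⟪h, -k2⟫_ℝ = m2 * ‖k2‖ ^ 2 - m1 * ⟪k1, k2⟫_ℝ := by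
      rw [hdef, inner_neg_right, inner_sub_left, inner_smul_left, inner_smul_left,
        real_inner_self_eq_norm_sq]
      simp
    have h4 : m2 * ‖k2‖ ^ 2 ≤ 1 / 2 := by
      rw [heq]
      calc mlo * ‖k2‖ ^ 2 ≤ mlo * (4 * C ^ 2) := mul_le_mul_of_nonneg_left hk2sq hmlo0.le
        _ = 1 / 2 := hmC
    have h5 : 0 ≤ m1 * ⟪k1, k2⟫_ℝ := mul_nonneg hm1.le hk12
    rw [heq] at h1
    linarith
  have l1 := L1 lo1
  have l2 := L2 lo2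
  -- upper end
  have up : ¬ (m1 = mhi ∨ m2 = mhi) := by
    intro hor
    set S : ℝ := m1 ^ s + m2 ^ s with hS
    have e1 : m1 * m1 ^ (s - 1) = m1 ^ s := by
      rw [Real.rpow_sub hm1, Real.rpow_one]; field_simp
    have e2 : m2 * m2 ^ (s - 1) = m2 ^ s := by
      rw [Real.rpow_sub hm2, Real.rpow_one]; field_simp
    have h1 : ⟪V h, h⟫_ℝ ≤ S := by
      have : ⟪V h, h⟫_ℝ = m1 * ⟪V h, k1⟫_ℝ + m2 * ⟪V h, -k2⟫_ℝ := by
        conv_lhs => rw [hdef]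
        rw [← hdef, inner_sub_right, inner_smul_right, inner_smul_right, inner_neg_right]
        ring
      rw [this, hS, ← e1, ← e2]
      exact add_le_add (mul_le_mul_of_nonneg_left l1 hm1.le)
        (mul_le_mul_of_nonneg_left l2 hm2.le)
    have h2 : ‖h‖ ^ 2 ≤ S + η * ‖h‖ := by
      have h3 : ⟪h - V h, h⟫_ℝ ≤ ‖h - V h‖ * ‖h‖ := real_inner_le_norm _ _
      rw [inner_sub_left, real_inner_self_eq_norm_sq] at h3
      have h4 : ‖h - V h‖ * ‖h‖ ≤ η * ‖h‖ := by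
        rw [norm_sub_rev]
        exact mul_le_mul_of_nonneg_right hVh (norm_nonneg _)
      linarith
    have hm1s : mlo ≤ mhi := by linarith
    have hSpos1 : 0 < m1 ^ s := Real.rpow_pos_of_pos hm1 _
    have hSpos2 : 0 < m2 ^ s := Real.rpow_pos_of_pos hm2 _
    have h3 : mhi ≤ S := by
      have h4 : mhi ≤ mhi ^ s := by
        calc mhi = mhi ^ (1 : ℝ) := (Real.rpow_one _).symm
          _ ≤ mhi ^ s := Real.rpow_le_rpow_of_exponent_le (by linarith) hs.le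
      rcases hor with h5 | h5
      · rw [hS, h5]; linarith
      · rw [hS, h5]; linarith
    have hn : 0 ≤ ‖h‖ := norm_nonneg h
    have h4 : ‖h‖ ≤ S + 2 := by nlinarith
    have h5 := hEs h
    simp only [Ph] at hle
    rw [← hdef, ← hS] at hle
    have h6 : 4 / 5 * S ≤ S / s := by
      rw [le_div_iff₀ hs0]
      nlinarith
    nlinarith
  have hi1 : m1 < mhi := lt_of_le_of_ne h1h (fun hh => up (Or.inl hh))
  have hi2 : m2 < mhi := lt_of_le_of_ne h2h (fun hh => up (Or.inr hh))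
  refine ⟨⟨lo1, hi1⟩, ⟨lo2, hi2⟩, le_antisymm l1 (R1 hi1), ?_⟩
  have := le_antisymm l2 (R2 hi2)
  rwa [inner_neg_right] at this

theorem norm_lower {V : H → H} {C mlo mhi η s : ℝ} (hC : 0 < C) (hmlo : 0 < mlo)
    (hη1 : η ≤ 1 / 10) (hs : 1 < s) (hs3 : 3 / 4 ≤ mlo ^ (s - 1)) (hVη : ∀ h, ‖V h - h‖ ≤ η)
    {k1 k2 : H} (hk1 : ‖k1‖ ≤ 2 * C) (hk2 : ‖k2‖ ≤ 2 * C) {m1 m2 : ℝ} (hm1 : m1 ∈ Icc mlo mhi)
    (hm2 : m2 ∈ Icc mlo mhi) {u : H} {m : ℝ} (hm : mlo ≤ m)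
    (h : ⟪V (m1 • k1 - m2 • k2), u⟫_ℝ = m ^ (s - 1)) :
    (3 / 4) / (4 * C * mhi + 1) ≤ ‖u‖ := by
  have h1 : ‖m1 • k1 - m2 • k2‖ ≤ 4 * C * mhi := by
    calc ‖m1 • k1 - m2 • k2‖ ≤ ‖m1 • k1‖ + ‖m2 • k2‖ := norm_sub_le _ _
      _ = m1 * ‖k1‖ + m2 * ‖k2‖ := by
        rw [norm_smul, norm_smul, Real.norm_of_nonneg (by linarith [hm1.1] : (0 : ℝ) ≤ m1),
          Real.norm_of_nonneg (by linarith [hm2.1] : (0 : ℝ) ≤ m2)]
      _ ≤ mhi * (2 * C) + mhi * (2 * C) := by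
        apply add_le_add
        · exact mul_le_mul hm1.2 hk1 (norm_nonneg _) (by linarith [hm1.1, hm1.2])
        · exact mul_le_mul hm2.2 hk2 (norm_nonneg _) (by linarith [hm2.1, hm2.2])
      _ = 4 * C * mhi := by ring
  have h2 : ‖V (m1 • k1 - m2 • k2)‖ ≤ 4 * C * mhi + 1 := by
    have h3 := hVη (m1 • k1 - m2 • k2)
    have h4 := norm_le_norm_add_norm_sub' (V (m1 • k1 - m2 • k2)) (m1 • k1 - m2 • k2)
    linarith
  have h3 : 3 / 4 ≤ m ^ (s - 1) := hs3.trans (Real.rpow_le_rpow hmlo.le hm (by linarith))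
  have h4 := real_inner_le_norm (V (m1 • k1 - m2 • k2)) u
  rw [h] at h4
  have hpos : 0 < 4 * C * mhi + 1 := by
    have : 0 ≤ mhi := by linarith [hm1.1, hm1.2]
    positivity
  rw [div_le_iff₀ hpos]
  have h5 : ‖V (m1 • k1 - m2 • k2)‖ * ‖u‖ ≤ (4 * C * mhi + 1) * ‖u‖ :=
    mul_le_mul_of_nonneg_right h2 (norm_nonneg _)
  linarith

theorem unique_m {V : H → H} {C Hn mlo mhi s κ : ℝ} (hC : 0 < C) (hHn : 0 < Hn) (hmlo : 0 < mlo)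
    (hmhi : 1 ≤ mhi) (hs : 1 ≤ s) (hs2 : s ≤ 2) (hκ : 0 < κ)
    (hsκ : (s - 1) * (mhi / mlo) < κ ^ 2 / (8 * (C * Hn) ^ 2))
    (hmon : ∀ h h', ‖h - h'‖ ^ 2 / 4 ≤ ⟪V h - V h', h - h'⟫_ℝ)
    {k1 k2 h1 h2 : H} (hh1 : ‖h1‖ ≤ Hn) (hh2 : ‖h2‖ ≤ Hn)
    (hk1 : κ ≤ ‖k1‖) (hk2 : κ ≤ ‖k2‖)
    (hk1h : ‖k1‖ ≤ C * ⟪k1, h1⟫_ℝ) (hk1h' : ⟪k1, h2⟫_ℝ = 0)
    (hk2h : ‖k2‖ ≤ C * ⟪k2, h2⟫_ℝ) (hk2h' : ⟪k2, h1⟫_ℝ = 0)
    {m m' : ℝ × ℝ} (hm : m ∈ Icc mlo mhi ×ˢ Icc mlo mhi) (hm' : m' ∈ Icc mlo mhi ×ˢ Icc mlo mhi)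
    (e1 : ⟪V (m.1 • k1 - m.2 • k2), k1⟫_ℝ = m.1 ^ (s - 1))
    (e2 : -⟪V (m.1 • k1 - m.2 • k2), k2⟫_ℝ = m.2 ^ (s - 1))
    (e1' : ⟪V (m'.1 • k1 - m'.2 • k2), k1⟫_ℝ = m'.1 ^ (s - 1))
    (e2' : -⟪V (m'.1 • k1 - m'.2 • k2), k2⟫_ℝ = m'.2 ^ (s - 1)) : m' = m := by
  obtain ⟨x, y⟩ := m
  obtain ⟨x', y'⟩ := m'
  simp only [mem_prod, mem_Icc] at *
  set h : H := x • k1 - y • k2 with hd
  set h' : H := x' • k1 - y' • k2 with hd'
  have hdiff : h - h' = (x - x') • k1 - (y - y') • k2 := by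
    rw [hd, hd', sub_smul, sub_smul]; abel
  set N : ℝ := ‖h - h'‖ with hN
  have hN0 : 0 ≤ N := norm_nonneg _
  have hmono := hmon h h'
  rw [← hN] at hmono
  have hexp : ⟪V h - V h', h - h'⟫_ℝ = (x ^ (s - 1) - x' ^ (s - 1)) * (x - x') +
      (y ^ (s - 1) - y' ^ (s - 1)) * (y - y') := by
    rw [hdiff, inner_sub_right, inner_smul_right, inner_smul_right, inner_sub_left, inner_sub_left,
      ← e1, ← e2, ← e1', ← e2']
    ring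
  have hx := slope_mul hmlo hm.1.1 hm'.1.1 hm.1.2 hm'.1.2 hmhi hs hs2
  have hy := slope_mul hmlo hm.2.1 hm'.2.1 hm.2.2 hm'.2.2 hmhi hs hs2
  -- lower bounds
  have b1 : |x - x'| * κ ≤ C * Hn * N := by
    have i1 : ⟪h - h', h1⟫_ℝ = (x - x') * ⟪k1, h1⟫_ℝ := by
      rw [hdiff, inner_sub_left, inner_smul_left, inner_smul_left, hk2h']
      simp
    have i2 : |⟪h - h', h1⟫_ℝ| ≤ N * ‖h1‖ := abs_real_inner_le_norm _ _
    rw [i1, abs_mul] at i2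
    have i3 : 0 ≤ ⟪k1, h1⟫_ℝ := by
      by_contra hcon
      have : C * ⟪k1, h1⟫_ℝ < 0 := mul_neg_of_pos_of_neg hC (not_le.mp hcon)
      linarith [norm_nonneg k1]
    rw [abs_of_nonneg i3] at i2
    have i4 : N * ‖h1‖ ≤ N * Hn := mul_le_mul_of_nonneg_left hh1 hN0
    calc |x - x'| * κ ≤ |x - x'| * (C * ⟪k1, h1⟫_ℝ) :=
          mul_le_mul_of_nonneg_left (hk1.trans hk1h) (abs_nonneg _)
      _ = C * (|x - x'| * ⟪k1, h1⟫_ℝ) := by ring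
      _ ≤ C * (N * Hn) := mul_le_mul_of_nonneg_left (i2.trans i4) hC.le
      _ = C * Hn * N := by ring
  have b2 : |y - y'| * κ ≤ C * Hn * N := by
    have i1 : ⟪h - h', h2⟫_ℝ = - ((y - y') * ⟪k2, h2⟫_ℝ) := by
      rw [hdiff, inner_sub_left, inner_smul_left, inner_smul_left, hk1h']
      simp
    have i2 : |⟪h - h', h2⟫_ℝ| ≤ N * ‖h2‖ := abs_real_inner_le_norm _ _
    rw [i1, abs_neg, abs_mul] at i2
    have i3 : 0 ≤ ⟪k2, h2⟫_ℝ := by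
      by_contra hcon
      have : C * ⟪k2, h2⟫_ℝ < 0 := mul_neg_of_pos_of_neg hC (not_le.mp hcon)
      linarith [norm_nonneg k2]
    rw [abs_of_nonneg i3] at i2
    have i4 : N * ‖h2‖ ≤ N * Hn := mul_le_mul_of_nonneg_left hh2 hN0
    calc |y - y'| * κ ≤ |y - y'| * (C * ⟪k2, h2⟫_ℝ) :=
          mul_le_mul_of_nonneg_left (hk2.trans hk2h) (abs_nonneg _)
      _ = C * (|y - y'| * ⟪k2, h2⟫_ℝ) := by ring
      _ ≤ C * (N * Hn) := mul_le_mul_of_nonneg_left (i2.trans i4) hC.le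
      _ = C * Hn * N := by ring
  have c1 : (x - x') ^ 2 * κ ^ 2 ≤ (C * Hn) ^ 2 * N ^ 2 := by
    have := mul_self_le_mul_self (by positivity) b1
    have e : |x - x'| * κ * (|x - x'| * κ) = (x - x') ^ 2 * κ ^ 2 := by
      rw [← sq_abs (x - x')]; ring
    have e' : C * Hn * N * (C * Hn * N) = (C * Hn) ^ 2 * N ^ 2 := by ring
    linarith
  have c2 : (y - y') ^ 2 * κ ^ 2 ≤ (C * Hn) ^ 2 * N ^ 2 := by
    have := mul_self_le_mul_self (by positivity) b2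
    have e : |y - y'| * κ * (|y - y'| * κ) = (y - y') ^ 2 * κ ^ 2 := by
      rw [← sq_abs (y - y')]; ring
    have e' : C * Hn * N * (C * Hn * N) = (C * Hn) ^ 2 * N ^ 2 := by ring
    linarith
  have hCH : 0 < (C * Hn) ^ 2 := by positivity
  set A : ℝ := (x - x') ^ 2 + (y - y') ^ 2 with hA
  have hA0 : 0 ≤ A := by positivity
  have d1 : A * κ ^ 2 ≤ 2 * (C * Hn) ^ 2 * N ^ 2 := by rw [hA]; linarith
  have d2 : N ^ 2 / 4 ≤ (s - 1) * (mhi / mlo) * A := by rw [hA]; linarith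
  have d3 : A * (κ ^ 2 / (8 * (C * Hn) ^ 2)) ≤ N ^ 2 / 4 := by
    rw [← mul_div_assoc, div_le_iff₀ (by positivity)]
    linarith
  have d4 : A * (κ ^ 2 / (8 * (C * Hn) ^ 2)) ≤ A * ((s - 1) * (mhi / mlo)) := by linarith
  have hAz : A = 0 := by
    by_contra hne
    have hpos : 0 < A := lt_of_le_of_ne hA0 (Ne.symm hne)
    have := le_of_mul_le_mul_left d4 hpos
    linarith
  have hx0 : x - x' = 0 := by
    have : (x - x') ^ 2 = 0 :=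
      le_antisymm (by linarith [sq_nonneg (y - y'), hA]) (sq_nonneg _)
    exact pow_eq_zero_iff (two_ne_zero) |>.mp this
  have hy0 : y - y' = 0 := by
    have : (y - y') ^ 2 = 0 :=
      le_antisymm (by linarith [sq_nonneg (x - x'), hA]) (sq_nonneg _)
    exact pow_eq_zero_iff (two_ne_zero) |>.mp this
  rw [Prod.mk.injEq]
  constructor <;> linarith

theorem Ph_tendsto {Es : H → ℝ} (hE : Continuous Es) {s : ℝ} (hs : 0 ≤ s) {x : ℕ → H × H}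
    {y : ℕ → ℝ × ℝ} {x0 : H × H} {y0 : ℝ × ℝ} (hx : Tendsto x atTop (𝓝 x0))
    (hy : Tendsto y atTop (𝓝 y0)) :
    Tendsto (fun n => Ph Es s (x n) (y n)) atTop (𝓝 (Ph Es s x0 y0)) := by
  have h2 : Tendsto (fun n => (x n, y n)) atTop (𝓝 (x0, y0)) := hx.prodMk_nhds hy
  have h1 : Tendsto (fun q : (H × H) × (ℝ × ℝ) => Ph Es s q.1 q.2) (𝓝 (x0, y0))
    (𝓝 (Ph Es s x0 y0)) := (Ph_cont (H := H) hE hs).continuousAt
  have h3 := h1.comp h2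
  simp only [Function.comp_def] at h3
  exact h3

/-- The Danskin approximating sequence. -/
theorem danskin {Es : H → ℝ} (hE : Continuous Es) {s : ℝ} (hs : 0 ≤ s)
    {K : Set (H × H)} (hK : Convex ℝ K) {B : Set (ℝ × ℝ)} (hB : IsCompact B)
    {ko : H × H} (hko : ko ∈ K) {mo : ℝ × ℝ}
    (hmm : ∀ k ∈ K, ∃ m ∈ B, (∀ m' ∈ B, Ph Es s k m' ≤ Ph Es s k m) ∧
      ∀ m' ∈ B, Ph Es s ko m' ≤ Ph Es s k m)
    (huniq : ∀ m' ∈ B, (∀ m'' ∈ B, Ph Es s ko m'' ≤ Ph Es s ko m') → m' = mo)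
    {k' : H × H} (hk' : k' ∈ K) : ∃ (φ : ℕ → ℕ) (mn : ℕ → ℝ × ℝ), StrictMono φ ∧
      Tendsto (mn ∘ φ) atTop (𝓝 mo) ∧
      ∀ n : ℕ, mn n ∈ B ∧
        Ph Es s ko (mn n) ≤ Ph Es s (ko + (1 / ((n : ℝ) + 1)) • (k' - ko)) (mn n) := by
  have hseg : ∀ n : ℕ, ko + (1 / ((n : ℝ) + 1)) • (k' - ko) ∈ K := by
    intro n
    exact hK.add_smul_sub_mem hko hk' ⟨by positivity, by
      rw [div_le_one (by positivity)]
      have : (0 : ℝ) ≤ n := Nat.cast_nonneg n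
      linarith⟩
  choose mn hmn hmn1 hmn2 using fun n => hmm _ (hseg n)
  obtain ⟨mbar, hmbar, φ, hφ, hlim⟩ := hB.tendsto_subseq hmn
  have hk : Tendsto (fun n : ℕ => ko + (1 / ((n : ℝ) + 1)) • (k' - ko)) atTop (𝓝 ko) := by
    have h0 : Tendsto (fun n : ℕ => (1 / ((n : ℝ) + 1))) atTop (𝓝 0) :=
      tendsto_one_div_add_atTop_nhds_zero_nat
    have h1 := (h0.smul_const (k' - ko)).const_add ko
    simpa using h1
  have hk2' : Tendsto (fun n : ℕ => ko + (1 / ((φ n : ℝ) + 1)) • (k' - ko)) atTop (𝓝 ko) :=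
    hk.comp hφ.tendsto_atTop
  have hmo' : mbar = mo := by
    refine huniq mbar hmbar ?_
    intro m' hm'
    have t1 := Ph_tendsto hE hs hk2' (tendsto_const_nhds (x := m'))
    have t2 := Ph_tendsto hE hs hk2' hlim
    exact le_of_tendsto_of_tendsto' t1 t2 (fun n => hmn1 (φ n) m' hm')
  exact ⟨φ, mn, hφ, hmo' ▸ hlim, fun n => ⟨hmn n, hmn2 n (mn n) (hmn n)⟩⟩

/-- The core of the saddle point theorem, all constants given. -/
theorem core {K1 K2 : Set H} {V : H → H} {Es : H → ℝ} {h1 h2 : H}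
    {c C Hn mlo mhi η s : ℝ} (hc : 0 < c)
    (hC : 0 < C) (hHn : 0 < Hn) (hmlo : mlo = 1 / (8 * C ^ 2)) (hmhi : 11 + mlo + 10 * c ≤ mhi)
    (hη : 0 < η) (hη1 : η ≤ 1 / 10) (hη2 : 2 * C * η ≤ 1 / 8) (hs : 1 < s) (hs2 : s ≤ 5 / 4)
    (hs3 : 3 / 4 ≤ mlo ^ (s - 1))
    (hs4 : (s - 1) * (mhi / mlo) < ((3 / 4) / (4 * C * mhi + 1)) ^ 2 / (8 * (C * Hn) ^ 2))
    (hK1 : Convex ℝ K1) (hK2 : Convex ℝ K2) (hK1c : IsCompact K1) (hK2c : IsCompact K2)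
    (hK1n : K1.Nonempty) (hK2n : K2.Nonempty)
    (hn1 : ∀ k ∈ K1, ‖k‖ ≤ 2 * C) (hn2 : ∀ k ∈ K2, ‖k‖ ≤ 2 * C)
    (h12 : ∀ k1 ∈ K1, ∀ k2 ∈ K2, 0 ≤ ⟪k1, k2⟫_ℝ) (hh1 : ‖h1‖ ≤ Hn) (hh2 : ‖h2‖ ≤ Hn)
    (hk1 : ∀ k ∈ K1, ‖k‖ ≤ C * ⟪k, h1⟫_ℝ ∧ ⟪k, h2⟫_ℝ = 0)
    (hk2 : ∀ k ∈ K2, ‖k‖ ≤ C * ⟪k, h2⟫_ℝ ∧ ⟪k, h1⟫_ℝ = 0)
    (hV : Continuous V) (hVη : ∀ h, ‖V h - h‖ ≤ η)
    (hmon : ∀ h h', ‖h - h'‖ ^ 2 / 4 ≤ ⟪V h - V h', h - h'⟫_ℝ)
    (hsub : ∀ h h', Es h + ⟪V h, h' - h⟫_ℝ ≤ Es h')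
    (hEs : ∀ h, ‖h‖ ^ 2 / 2 ≤ Es h ∧ Es h ≤ ‖h‖ ^ 2 / 2 + η * (‖h‖ + 1))
    (hex : ∃ k1 ∈ K1, ∃ k2 ∈ K2, ∀ m1 ∈ Icc mlo mhi, ∀ m2 ∈ Icc mlo mhi,
      (m1 ^ s + m2 ^ s) / s - ‖m1 • k1 - m2 • k2‖ ^ 2 / 2 ≤ c) :
    ∃ k1 ∈ K1, ∃ k2 ∈ K2, ∃ m1 ∈ Ioo mlo mhi, ∃ m2 ∈ Ioo mlo mhi,
      (∀ k ∈ K1, ⟪V (m1 • k1 - m2 • k2), k⟫_ℝ ≤ ⟪V (m1 • k1 - m2 • k2), k1⟫_ℝ) ∧
      (∀ k ∈ K2, ⟪V (m1 • k1 - m2 • k2), k2⟫_ℝ ≤ ⟪V (m1 • k1 - m2 • k2), k⟫_ℝ) ∧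
      ⟪V (m1 • k1 - m2 • k2), k1⟫_ℝ = m1 ^ (s - 1) ∧
      -⟪V (m1 • k1 - m2 • k2), k2⟫_ℝ = m2 ^ (s - 1) ∧
      ∀ c' : ℝ, (∃ k1' ∈ K1, ∃ k2' ∈ K2, ∀ m1' ∈ Icc mlo mhi, ∀ m2' ∈ Icc mlo mhi,
        (m1' ^ s + m2' ^ s) / s - ‖m1' • k1' - m2' • k2'‖ ^ 2 / 2 ≤ c') →
        (m1 ^ s + m2 ^ s) / s - Es (m1 • k1 - m2 • k2) ≤ c' := by
  have hmlo0 : 0 < mlo := by rw [hmlo]; positivity
  have hmhi1 : 1 ≤ mhi := by linarith
  have hEc := Es_cont hV hsub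
  have hB : IsCompact (Icc mlo mhi ×ˢ Icc mlo mhi : Set (ℝ × ℝ)) := isCompact_Icc.prod isCompact_Icc
  have hBn : (Icc mlo mhi ×ˢ Icc mlo mhi : Set (ℝ × ℝ)).Nonempty :=
    ⟨(mlo, mlo), ⟨le_refl _, by simp only; linarith⟩, le_refl _, by simp only; linarith⟩
  obtain ⟨⟨k1, k2⟩, hko, hmm⟩ := exists_minimax hEc (show 0 ≤ s by linarith) (hK1c.prod hK2c)
    (hK1n.prod hK2n) hB hBn
  have hk1m : k1 ∈ K1 := hko.1
  have hk2m : k2 ∈ K2 := hko.2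
  obtain ⟨mo, hmo, hmax, -⟩ := hmm (k1, k2) hko
  -- comparison with test functions
  have hcmp : ∀ c' : ℝ, (∃ k1' ∈ K1, ∃ k2' ∈ K2, ∀ m1' ∈ Icc mlo mhi, ∀ m2' ∈ Icc mlo mhi,
        (m1' ^ s + m2' ^ s) / s - ‖m1' • k1' - m2' • k2'‖ ^ 2 / 2 ≤ c') →
        ∀ m ∈ (Icc mlo mhi ×ˢ Icc mlo mhi : Set (ℝ × ℝ)), Ph Es s (k1, k2) m ≤ c' := by
    rintro c' ⟨k1', hk1', k2', hk2', hall⟩ m hm
    obtain ⟨m', hm', -, h2⟩ := hmm (k1', k2') ⟨hk1', hk2'⟩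
    refine (h2 m hm).trans ?_
    have h3 := hall m'.1 hm'.1 m'.2 hm'.2
    have h4 := (hEs (m'.1 • k1' - m'.2 • k2')).1
    unfold Ph
    simp only
    linarith
  have hEs2 : ∀ h, Es h ≤ ‖h‖ ^ 2 / 2 + η * (‖h‖ + 1) := fun h => (hEs h).2
  have hint := fun (m : ℝ × ℝ) (hm : m ∈ (Icc mlo mhi ×ˢ Icc mlo mhi : Set (ℝ × ℝ)))
      (hmx : ∀ m' ∈ Icc mlo mhi ×ˢ Icc mlo mhi, Ph Es s (k1, k2) m' ≤ Ph Es s (k1, k2) m) =>
    interior hV hsub hc hC hmlo hmhi hη hη1 hη2 hs hs2 hs3 hVη hEs2 (k := (k1, k2))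
      (hn1 k1 hk1m) (hn2 k2 hk2m) (h12 k1 hk1m k2 hk2m) hm hmx (hcmp c hex m hm)
  obtain ⟨hi1, hi2, e1, e2⟩ := hint mo hmo hmax
  have hkap : 0 < (3 / 4) / (4 * C * mhi + 1) := by positivity
  have hl1 : (3 / 4) / (4 * C * mhi + 1) ≤ ‖k1‖ :=
    norm_lower hC hmlo0 hη1 hs hs3 hVη (hn1 k1 hk1m) (hn2 k2 hk2m) hmo.1 hmo.2 hi1.1.le e1
  have hl2 : (3 / 4) / (4 * C * mhi + 1) ≤ ‖k2‖ := by
    have := norm_lower (u := -k2) hC hmlo0 hη1 hs hs3 hVη (hn1 k1 hk1m) (hn2 k2 hk2m) hmo.1 hmo.2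
      hi2.1.le (by rw [inner_neg_right]; exact e2)
    rwa [norm_neg] at this
  have huniq : ∀ m' ∈ (Icc mlo mhi ×ˢ Icc mlo mhi : Set (ℝ × ℝ)),
      (∀ m'' ∈ (Icc mlo mhi ×ˢ Icc mlo mhi : Set (ℝ × ℝ)),
        Ph Es s (k1, k2) m'' ≤ Ph Es s (k1, k2) m') → m' = mo := by
    intro m' hm' hmx'
    obtain ⟨-, -, e1', e2'⟩ := hint m' hm' hmx'
    exact unique_m hC hHn hmlo0 hmhi1 hs.le (by linarith) hkap hs4 hmon hh1 hh2 hl1 hl2
      (hk1 k1 hk1m).1 (hk1 k1 hk1m).2 (hk2 k2 hk2m).1 (hk2 k2 hk2m).2 hmo hm' e1 e2 e1' e2'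
  -- Danskin
  have dan := fun (k' : H × H) (hk' : k' ∈ K1 ×ˢ K2) =>
    danskin hEc (show 0 ≤ s by linarith) (hK1.prod hK2) hB hko hmm huniq hk'
  refine ⟨k1, hk1m, k2, hk2m, mo.1, hi1, mo.2, hi2, ?_, ?_, e1, e2, fun c' hc' => hcmp c' hc' mo hmo⟩
  · intro k hk
    obtain ⟨φ, mn, hφ, hlim, hall⟩ := dan (k, k2) ⟨hk, hk2m⟩
    have key : ∀ n : ℕ, ⟪V ((mn n).1 • k1 - (mn n).2 • k2), k - k1⟫_ℝ ≤ 0 := by
      intro n
      obtain ⟨hmem, hle⟩ := hall n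
      simp only [Ph, Prod.fst_add, Prod.snd_add, Prod.smul_fst, Prod.smul_snd, Prod.fst_sub,
        Prod.snd_sub, sub_self, smul_zero, add_zero] at hle
      have h3 := hsub ((mn n).1 • k1 - (mn n).2 • k2)
        ((mn n).1 • (k1 + (1 / ((n : ℝ) + 1)) • (k - k1)) - (mn n).2 • k2)
      have h4 : ((mn n).1 • (k1 + (1 / ((n : ℝ) + 1)) • (k - k1)) - (mn n).2 • k2) -
          ((mn n).1 • k1 - (mn n).2 • k2) = ((mn n).1 * (1 / ((n : ℝ) + 1))) • (k - k1) := by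
        rw [smul_add, smul_smul]; abel
      rw [h4, inner_smul_right] at h3
      have hpos : 0 < (mn n).1 * (1 / ((n : ℝ) + 1)) :=
        mul_pos (by linarith [hmem.1.1]) (by positivity)
      have h5 : (mn n).1 * (1 / ((n : ℝ) + 1)) *
        ⟪V ((mn n).1 • k1 - (mn n).2 • k2), k - k1⟫_ℝ ≤ 0 := by linarith
      by_contra hcon
      have := mul_pos hpos (not_le.mp hcon)
      linarith
    have hc1 : Continuous (fun m : ℝ × ℝ => ⟪V (m.1 • k1 - m.2 • k2), k - k1⟫_ℝ) := by fun_prop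
    have t := (hc1.tendsto mo).comp hlim
    have := le_of_tendsto' t (fun n => key (φ n))
    rw [inner_sub_right] at this
    linarith
  · intro k hk
    obtain ⟨φ, mn, hφ, hlim, hall⟩ := dan (k1, k) ⟨hk1m, hk⟩
    have key : ∀ n : ℕ, 0 ≤ ⟪V ((mn n).1 • k1 - (mn n).2 • k2), k - k2⟫_ℝ := by
      intro n
      obtain ⟨hmem, hle⟩ := hall n
      simp only [Ph, Prod.fst_add, Prod.snd_add, Prod.smul_fst, Prod.smul_snd, Prod.fst_sub,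
        Prod.snd_sub, sub_self, smul_zero, add_zero] at hle
      have h3 := hsub ((mn n).1 • k1 - (mn n).2 • k2)
        ((mn n).1 • k1 - (mn n).2 • (k2 + (1 / ((n : ℝ) + 1)) • (k - k2)))
      have h4 : ((mn n).1 • k1 - (mn n).2 • (k2 + (1 / ((n : ℝ) + 1)) • (k - k2))) -
          ((mn n).1 • k1 - (mn n).2 • k2) = -(((mn n).2 * (1 / ((n : ℝ) + 1))) • (k - k2)) := by
        rw [smul_add, smul_smul]; abel
      rw [h4, inner_neg_right, inner_smul_right] at h3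
      have hpos : 0 < (mn n).2 * (1 / ((n : ℝ) + 1)) :=
        mul_pos (by linarith [hmem.2.1]) (by positivity)
      have h5 : 0 ≤ (mn n).2 * (1 / ((n : ℝ) + 1)) *
        ⟪V ((mn n).1 • k1 - (mn n).2 • k2), k - k2⟫_ℝ := by linarith
      by_contra hcon
      have := mul_neg_of_pos_of_neg hpos (not_le.mp hcon)
      linarith
    have hc1 : Continuous (fun m : ℝ × ℝ => ⟪V (m.1 • k1 - m.2 • k2), k - k2⟫_ℝ) := by fun_prop
    have t := (hc1.tendsto mo).comp hlim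
    have := ge_of_tendsto' t (fun n => key (φ n))
    rw [inner_sub_right] at this
    linarith

end A3aux

open A3aux in
theorem st_A3 : ST_A3 := by
  intro c C Hn hc hC hHn
  obtain ⟨mlo, hmlo⟩ : ∃ mlo : ℝ, mlo = 1 / (8 * C ^ 2) := ⟨_, rfl⟩
  have hmlo0 : 0 < mlo := by rw [hmlo]; positivity
  obtain ⟨mhi, hmhi⟩ : ∃ mhi : ℝ, mhi = 11 + mlo + 10 * c := ⟨_, rfl⟩
  have hmhi0 : 0 < mhi := by rw [hmhi]; positivity
  obtain ⟨η, hηdef⟩ : ∃ η : ℝ, η = min (1 / 10) (1 / (16 * C)) := ⟨_, rfl⟩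
  have hη0 : 0 < η := by rw [hηdef]; positivity
  have hη1 : η ≤ 1 / 10 := by rw [hηdef]; exact min_le_left _ _
  have hη2 : 2 * C * η ≤ 1 / 8 := by
    have : η ≤ 1 / (16 * C) := by rw [hηdef]; exact min_le_right _ _
    calc 2 * C * η ≤ 2 * C * (1 / (16 * C)) := mul_le_mul_of_nonneg_left this (by positivity)
      _ = 1 / 8 := by field_simp; norm_num
  -- choice of δ
  have hκ : 0 < ((3 / 4) / (4 * C * mhi + 1)) ^ 2 / (8 * (C * Hn) ^ 2) := by positivity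
  have hev : ∀ᶠ s : ℝ in 𝓝 1, s ≤ 5 / 4 ∧ 3 / 4 ≤ mlo ^ (s - 1) ∧
      (s - 1) * (mhi / mlo) < ((3 / 4) / (4 * C * mhi + 1)) ^ 2 / (8 * (C * Hn) ^ 2) := by
    have c1 : Continuous (fun s : ℝ => mlo ^ (s - 1)) :=
      (Real.continuous_const_rpow hmlo0.ne').comp (by fun_prop)
    have c2 : Continuous (fun s : ℝ => (s - 1) * (mhi / mlo)) := by fun_prop
    have e1 : ∀ᶠ s : ℝ in 𝓝 1, 3 / 4 < mlo ^ (s - 1) := by
      apply c1.continuousAt.eventually_const_lt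
      simp only [sub_self, Real.rpow_zero]
      norm_num
    have e2 : ∀ᶠ s : ℝ in 𝓝 1, (s - 1) * (mhi / mlo) <
        ((3 / 4) / (4 * C * mhi + 1)) ^ 2 / (8 * (C * Hn) ^ 2) := by
      apply c2.continuousAt.eventually_lt_const
      simpa using hκ
    have e3 : ∀ᶠ s : ℝ in 𝓝 1, s < 5 / 4 := eventually_lt_nhds (by norm_num)
    filter_upwards [e1, e2, e3] with s h1 h2 h3
    exact ⟨h3.le, h1.le, h2⟩
  obtain ⟨δ, hδ, hball⟩ := Metric.eventually_nhds_iff.mp hev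
  refine ⟨mlo, mhi, η, δ, hmlo0, by linarith, hη0, hδ, ?_⟩
  intro H _ _ K1 K2 V Es h1 h2 s hs1 hsδ hK1 hK2 hK1c hK2c hK1n hK2n hn1 hn2 h12 hh1 hh2 hk1 hk2
    hV hVη hmon hsub hEs hex
  obtain ⟨hs2, hs3, hs4⟩ := hball (show dist s 1 < δ by
    rw [Real.dist_eq, abs_of_pos (by linarith)]; linarith)
  exact core hc hC hHn hmlo (by rw [hmhi]) hη0 hη1 hη2 hs1 hs2 hs3 hs4 hK1 hK2 hK1c hK2c hK1n hK2n
    hn1 hn2 h12 hh1 hh2 hk1 hk2 hV hVη hmon hsub hEs hex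

end LEP
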