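import Pool.Agent.Helper14.LE.Stmts2

/-!
# MP_08fe4e_an, module A4: test functions
-/

open MeasureTheory Set Filter Topology InnerProductSpace

noncomputable section

namespace LEP
namespace A4aux

theorem holder_avg {X : Type} [MeasurableSpace X] (μ : Measure X) {B : Set X} {g : X → ℝ}
    (hg : ∀ x, 0 ≤ g x) (hB : μ B < ⊤) (hBm : MeasurableSet B)
    (hgm : AEStronglyMeasurable g (μ.restrict B)) {M : ℝ} (hM : ∀ x ∈ B, g x ≤ M)
    {p : ℕ} (hp : 1 ≤ p) :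
    ∫ x in B, g x ∂μ ≤ (∫ x in B, g x ^ (p + 1) ∂μ) ^ ((1 : ℝ) / (p + 1)) *
      (μ.real B) ^ ((p : ℝ) / (p + 1)) := by
  have hp0 : (0 : ℝ) < p := by exact_mod_cast hp
  have hfin : IsFiniteMeasure (μ.restrict B) := ⟨by rwa [Measure.restrict_apply_univ]⟩
  have hconj : ((p : ℝ) + 1).HolderConjugate (((p : ℝ) + 1) / p) := by
    rw [Real.holderConjugate_iff]
    refine ⟨by linarith, ?_⟩
    field_simp
    ring
  have hbd : ∀ᵐ x ∂(μ.restrict B), ‖g x‖ ≤ M := by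
    rw [ae_restrict_iff' hBm]
    exact Eventually.of_forall fun x hx => by rw [Real.norm_of_nonneg (hg x)]; exact hM x hx
  have h1 := integral_mul_le_Lp_mul_Lq_of_nonneg (μ := μ.restrict B) hconj (f := g)
    (g := fun _ => (1 : ℝ)) (Eventually.of_forall hg) (Eventually.of_forall fun _ => zero_le_one)
    (MemLp.of_bound hgm M hbd) (memLp_const 1)
  simp only [mul_one, Real.one_rpow, integral_const, smul_eq_mul, measureReal_restrict_apply_univ]
    at h1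
  have h2 : (1 : ℝ) / (((p : ℝ) + 1) / p) = (p : ℝ) / (p + 1) := by field_simp
  rw [h2] at h1
  have h3 : ∀ x, g x ^ ((p : ℝ) + 1) = g x ^ (p + 1) := by
    intro x
    have : ((p : ℝ) + 1) = ((p + 1 : ℕ) : ℝ) := by push_cast; ring
    rw [this, Real.rpow_natCast]
  simp only [h3] at h1
  exact h1

variable {H : Type} [NormedAddCommGroup H] [InnerProductSpace ℝ H] [CompleteSpace H]
variable {X : Type} [TopologicalSpace X] [MeasurableSpace X] [BorelSpace X]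

theorem test_point (lam : Measure X) {κ : X → H} (hsm : StronglyMeasurable κ) {W : Set X}
    (hWm : MeasurableSet W) (hWc : IsCompact W) (hκ : ContinuousOn κ W) (hWf : lam W < ⊤)
    (hpos : ∀ U, IsOpen U → (U ∩ W).Nonempty → 0 < lam (U ∩ W)) {u : H} {x : X} (hx : x ∈ W)
    (hxu : 1 ≤ ⟪κ x, u⟫_ℝ) {ε : ℝ} (hε : 0 < ε) :
    ∀ᶠ p : ℕ in atTop, ∃ k ∈ Kf lam κ W p, 1 - ε ≤ ⟪k, u⟫_ℝ := by
  -- wlog small ε
  obtain ⟨e, he0, he1, heε⟩ : ∃ e : ℝ, 0 < e ∧ e ≤ 1 / 2 ∧ 2 * e ≤ ε :=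
    ⟨min (1 / 2) (ε / 2), by positivity, min_le_left _ _, by
      have := min_le_right (1 / 2) (ε / 2); linarith⟩
  -- neighbourhood
  have hc : ContinuousWithinAt (fun y => ⟪κ y, u⟫_ℝ) W x :=
    ContinuousWithinAt.inner (hκ x hx) continuousWithinAt_const
  have hev : ∀ᶠ y in 𝓝[W] x, 1 - e < ⟪κ y, u⟫_ℝ :=
    hc.eventually_const_lt (by linarith)
  rw [eventually_nhdsWithin_iff, eventually_nhds_iff] at hev
  obtain ⟨U, hU, hUo, hxU⟩ := hev
  obtain ⟨B, hBdef⟩ : ∃ B : Set X, B = U ∩ W := ⟨_, rfl⟩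
  have hBm : MeasurableSet B := by rw [hBdef]; exact hUo.measurableSet.inter hWm
  have hBW : B ⊆ W := by rw [hBdef]; exact inter_subset_right
  have hBf : lam B < ⊤ := lt_of_le_of_lt (measure_mono hBW) hWf
  have hBpos : 0 < lam B := by rw [hBdef]; exact hpos U hUo ⟨x, hxU, hx⟩
  have hBu : ∀ y ∈ B, 1 - e ≤ ⟪κ y, u⟫_ℝ := by
    intro y hy
    rw [hBdef] at hy
    exact (hU y hy.1 hy.2).le
  have hL : 0 < lam.real B := by
    rw [measureReal_def, ENNReal.toReal_pos_iff]; exact ⟨hBpos, hBf⟩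
  obtain ⟨c, hc⟩ : ∃ c : ℝ, ∀ y ∈ W, ‖κ y‖ ≤ c := by
    obtain ⟨c, hc⟩ := (hWc.image_of_continuousOn hκ).isBounded.exists_norm_le
    exact ⟨c, fun y hy => hc _ ⟨y, hy, rfl⟩⟩
  have hintB : IntegrableOn κ B lam := by
    refine Measure.integrableOn_of_bounded (M := c) hBf.ne hsm.aestronglyMeasurable ?_
    rw [ae_restrict_iff' hBm]
    exact Eventually.of_forall fun y hy => hc y (hBW hy)
  obtain ⟨I, hI⟩ : ∃ I : H, I = ∫ y in B, κ y ∂lam := ⟨_, rfl⟩
  have hinner : ∀ h : H, ⟪I, h⟫_ℝ = ∫ y in B, ⟪κ y, h⟫_ℝ ∂lam := by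
    intro h
    rw [hI, real_inner_comm, ← integral_inner hintB]
    exact integral_congr_ae (Eventually.of_forall fun y => real_inner_comm _ _)
  have hmm : ∀ h : H, StronglyMeasurable (fun y => max ⟪κ y, h⟫_ℝ 0) := by
    intro h
    have h1 : StronglyMeasurable (fun y => ⟪κ y, h⟫_ℝ) := hsm.inner stronglyMeasurable_const
    exact (h1.measurable.max measurable_const).stronglyMeasurable
  -- the limit
  have hlim : Tendsto (fun p : ℕ => (lam.real B) ^ ((1 : ℝ) / (p + 1)) * (1 - e)) atTop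
      (𝓝 (1 * (1 - e))) := by
    have h0 : Tendsto (fun n : ℕ => (1 / ((n : ℝ) + 1))) atTop (𝓝 0) :=
      tendsto_one_div_add_atTop_nhds_zero_nat
    have h1 := ((Real.continuous_const_rpow hL.ne').tendsto 0).comp h0
    simp only [Real.rpow_zero] at h1
    exact h1.mul_const _
  have hev2 : ∀ᶠ p : ℕ in atTop, 1 - ε < (lam.real B) ^ ((1 : ℝ) / (p + 1)) * (1 - e) :=
    hlim.eventually_const_lt (by linarith)
  filter_upwards [hev2, eventually_ge_atTop 1] with p hp hp1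
  have hp0 : (0 : ℝ) < (p : ℝ) + 1 := by positivity
  refine ⟨(lam.real B) ^ (-((p : ℝ) / (p + 1))) • I, ?_, ?_⟩
  · intro h
    rw [inner_smul_left, hinner]
    simp only [conj_trivial]
    have hgm : AEStronglyMeasurable (fun y => max ⟪κ y, h⟫_ℝ 0) (lam.restrict B) :=
      (hmm h).aestronglyMeasurable
    have hgm' : ∀ y ∈ W, max ⟪κ y, h⟫_ℝ 0 ≤ c * ‖h‖ := by
      intro y hy
      have hc0 : 0 ≤ c := (norm_nonneg _).trans (hc y hy)
      refine max_le ?_ (by positivity)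
      exact (real_inner_le_norm _ _).trans (mul_le_mul_of_nonneg_right (hc y hy) (norm_nonneg _))
    have h1 := holder_avg lam (g := fun y => max ⟪κ y, h⟫_ℝ 0) (fun _ => le_max_right _ _) hBf hBm
      hgm (fun y hy => hgm' y (hBW hy)) hp1
    have h2 : ∫ y in B, ⟪κ y, h⟫_ℝ ∂lam ≤ ∫ y in B, max ⟪κ y, h⟫_ℝ 0 ∂lam := by
      refine integral_mono ?_ ?_ (fun y => le_max_left _ _)
      · exact hintB.inner_const h
      · refine Measure.integrableOn_of_bounded (M := c * ‖h‖) hBf.ne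
          (hmm h).aestronglyMeasurable ?_
        rw [ae_restrict_iff' hBm]
        refine Eventually.of_forall fun y hy => ?_
        rw [Real.norm_of_nonneg (le_max_right _ _)]
        exact hgm' y (hBW hy)
    have h3 : (∫ y in B, (max ⟪κ y, h⟫_ℝ 0) ^ (p + 1) ∂lam) ^ ((1 : ℝ) / (p + 1)) ≤
        Nf lam κ W p h := by
      unfold Nf
      refine Real.rpow_le_rpow (integral_nonneg fun y => by positivity) ?_ (by positivity)
      refine setIntegral_mono_set ?_ (Eventually.of_forall fun y => by positivity)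
        (LE.le.eventuallyLE hBW)
      refine Measure.integrableOn_of_bounded (M := (c * ‖h‖) ^ (p + 1)) hWf.ne
          ((hmm h).pow _).aestronglyMeasurable ?_
      rw [ae_restrict_iff' hWm]
      refine Eventually.of_forall fun y hy => ?_
      rw [Real.norm_of_nonneg (by positivity)]
      exact pow_le_pow_left₀ (le_max_right _ _) (hgm' y hy) _
    have h4 : (lam.real B) ^ (-((p : ℝ) / (p + 1))) * (lam.real B) ^ ((p : ℝ) / (p + 1)) = 1 := by
      rw [← Real.rpow_add hL]; simp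
    have h5 : 0 < (lam.real B) ^ (-((p : ℝ) / (p + 1))) := Real.rpow_pos_of_pos hL _
    calc (lam.real B) ^ (-((p : ℝ) / (p + 1))) * ∫ y in B, ⟪κ y, h⟫_ℝ ∂lam
        ≤ (lam.real B) ^ (-((p : ℝ) / (p + 1))) *
          ((∫ y in B, (max ⟪κ y, h⟫_ℝ 0) ^ (p + 1) ∂lam) ^ ((1 : ℝ) / (p + 1)) *
            (lam.real B) ^ ((p : ℝ) / (p + 1))) :=
          mul_le_mul_of_nonneg_left (h2.trans h1) h5.le
      _ = (∫ y in B, (max ⟪κ y, h⟫_ℝ 0) ^ (p + 1) ∂lam) ^ ((1 : ℝ) / (p + 1)) := by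
          rw [mul_comm, mul_assoc, mul_comm ((lam.real B) ^ ((p : ℝ) / (p + 1))), h4, mul_one]
      _ ≤ Nf lam κ W p h := h3
  · rw [inner_smul_left, hinner]
    simp only [conj_trivial]
    have h1 : (1 - e) * lam.real B ≤ ∫ y in B, ⟪κ y, u⟫_ℝ ∂lam := by
      have h2 : ∫ y in B, (1 - e) ∂lam ≤ ∫ y in B, ⟪κ y, u⟫_ℝ ∂lam := by
        refine setIntegral_mono_on ?_ (hintB.inner_const u) hBm (fun y hy => hBu y hy)
        exact integrableOn_const hBf.ne
      rw [setIntegral_const, smul_eq_mul] at h2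
      linarith
    have h5 : 0 < (lam.real B) ^ (-((p : ℝ) / (p + 1))) := Real.rpow_pos_of_pos hL _
    have h6 : (lam.real B) ^ (-((p : ℝ) / (p + 1))) * lam.real B =
        (lam.real B) ^ ((1 : ℝ) / (p + 1)) := by
      conv_lhs => rw [← Real.rpow_one (lam.real B)]
      rw [Real.rpow_one, ← Real.rpow_add_one hL.ne']
      congr 1
      field_simp
      ring
    have h7 := mul_le_mul_of_nonneg_left h1 h5.le
    have h8 : (lam.real B) ^ (-((p : ℝ) / (p + 1))) * ((1 - e) * lam.real B) =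
        (lam.real B) ^ ((1 : ℝ) / (p + 1)) * (1 - e) := by rw [← h6]; ring
    linarith

theorem rpow_small {M : ℝ} {η : ℝ} (hη : 0 < η) :
    ∀ᶠ p : ℕ in atTop, ∀ m ∈ Icc 0 M, m ^ (1 + 1 / (p : ℝ)) / (1 + 1 / (p : ℝ)) ≤ m + η := by
  obtain ⟨N, hN1, hN2⟩ : ∃ N : ℝ, 1 ≤ N ∧ M ≤ N := ⟨max 1 M, le_max_left _ _, le_max_right _ _⟩
  have hN0 : 0 < N := by linarith
  have hlim : Tendsto (fun p : ℕ => N ^ ((1 : ℝ) / p)) atTop (𝓝 1) := by
    have h0 : Tendsto (fun n : ℕ => (1 / (n : ℝ))) atTop (𝓝 0) :=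
      tendsto_one_div_atTop_nhds_zero_nat
    have h1 := ((Real.continuous_const_rpow hN0.ne').tendsto 0).comp h0
    simp only [Real.rpow_zero] at h1
    exact h1
  have hev : ∀ᶠ p : ℕ in atTop, N ^ ((1 : ℝ) / p) < 1 + η / N :=
    hlim.eventually_lt_const (by have := div_pos hη hN0; linarith)
  filter_upwards [hev, eventually_ge_atTop 1] with p hp hp1 m hm
  have hp0 : (0 : ℝ) < p := by exact_mod_cast hp1
  have hq : 1 ≤ 1 + 1 / (p : ℝ) := by have : 0 < 1 / (p : ℝ) := by positivity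
                                      linarith
  have h1 : m ^ (1 + 1 / (p : ℝ)) / (1 + 1 / (p : ℝ)) ≤ m ^ (1 + 1 / (p : ℝ)) :=
    div_le_self (Real.rpow_nonneg hm.1 _) hq
  rcases eq_or_lt_of_le hm.1 with h0 | h0
  · rw [← h0, Real.zero_rpow (by positivity)]
    simp only [zero_div, zero_add]
    exact hη.le
  · have h2 : m ^ (1 + 1 / (p : ℝ)) = m * m ^ (1 / (p : ℝ)) := by
      rw [Real.rpow_add h0, Real.rpow_one]
    have h3 : m ^ (1 / (p : ℝ)) ≤ N ^ (1 / (p : ℝ)) :=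
      Real.rpow_le_rpow h0.le (hm.2.trans hN2) (by positivity)
    have h4 : m * m ^ (1 / (p : ℝ)) ≤ m * (1 + η / N) :=
      mul_le_mul_of_nonneg_left (h3.trans hp.le) h0.le
    have h5 : m * (η / N) ≤ η := by
      rw [mul_div_assoc', div_le_iff₀ hN0]
      nlinarith [hm.2.trans hN2]
    rw [h2] at h1
    calc _ ≤ m * m ^ (1 / (p : ℝ)) := h1.trans' (by rw [h2])
      _ ≤ m * (1 + η / N) := h4
      _ ≤ m + η := by linarith

end A4aux

open A4aux in
theorem st_A4 : ST_A4 := by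
  intro H _ _ _ X _ _ _ lam κ W1 W2 τ hD v0 hv0 M η hM hη
  obtain ⟨⟨⟨x1, hx1, hx1v⟩, ⟨x2, hx2, hx2v⟩⟩, -⟩ := hv0
  have hx2v' : 1 ≤ ⟪κ x2, -v0⟫_ℝ := by rw [inner_neg_right]; linarith
  have hε : 0 < η / (4 * M) := by positivity
  filter_upwards [test_point lam hD.sm hD.m1 hD.c1 hD.k1 hD.f1 hD.p1 hx1 hx1v hε,
    test_point lam hD.sm hD.m2 hD.c2 hD.k2 hD.f2 hD.p2 hx2 hx2v' hε,
    rpow_small (M := M) (show 0 < η / 4 by positivity)] with p hp1 hp2 hp3
  obtain ⟨k1, hk1, hk1v⟩ := hp1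
  obtain ⟨k2, hk2, hk2v⟩ := hp2
  refine ⟨k1, hk1, k2, hk2, fun m1 hm1 m2 hm2 => ?_⟩
  rw [inner_neg_right] at hk2v
  have h1 := hp3 m1 hm1
  have h2 := hp3 m2 hm2
  have h3 : (m1 ^ (1 + 1 / (p : ℝ)) + m2 ^ (1 + 1 / (p : ℝ))) / (1 + 1 / (p : ℝ)) ≤
      m1 + m2 + η / 2 := by
    rw [add_div]; linarith
  have h4 : ⟪m1 • k1 - m2 • k2, v0⟫_ℝ ≤ ‖m1 • k1 - m2 • k2‖ ^ 2 / 2 + ‖v0‖ ^ 2 / 2 := by
    have := norm_sub_sq_real (m1 • k1 - m2 • k2) v0
    have h5 : 0 ≤ ‖m1 • k1 - m2 • k2 - v0‖ ^ 2 := by positivity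
    linarith
  rw [inner_sub_left, inner_smul_left, inner_smul_left] at h4
  simp only [conj_trivial] at h4
  have h5 : m1 * (1 - η / (4 * M)) ≤ m1 * ⟪k1, v0⟫_ℝ := mul_le_mul_of_nonneg_left hk1v hm1.1
  have h6 : m2 * (1 - η / (4 * M)) ≤ m2 * (-⟪k2, v0⟫_ℝ) := mul_le_mul_of_nonneg_left hk2v hm2.1
  have h7 : m1 * (η / (4 * M)) ≤ η / 4 := by
    calc m1 * (η / (4 * M)) ≤ M * (η / (4 * M)) := mul_le_mul_of_nonneg_right hm1.2 hε.le
      _ = η / 4 := by field_simp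
  have h8 : m2 * (η / (4 * M)) ≤ η / 4 := by
    calc m2 * (η / (4 * M)) ≤ M * (η / (4 * M)) := mul_le_mul_of_nonneg_right hm2.2 hε.le
      _ = η / 4 := by field_simp
  linarith

end LEP
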