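import Pool.Agent.Helper14.LE.Stmts2

/-!
# MP_08fe4e_an, module A5: compactness lemma
-/

open MeasureTheory Set Filter Topology InnerProductSpace

noncomputable section

namespace LEP
namespace A5aux

variable {H : Type} [NormedAddCommGroup H] [InnerProductSpace ℝ H] [CompleteSpace H]

/-- The constraint set of a pair. -/
def Cab (a b : H) : Set H := {v | 1 ≤ ⟪a, v⟫_ℝ ∧ ⟪b, v⟫_ℝ ≤ -1}

theorem Cab_closed (a b : H) : IsClosed (Cab a b) := by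
  have h1 : IsClosed {v : H | 1 ≤ ⟪a, v⟫_ℝ} := isClosed_le (by fun_prop) (by fun_prop)
  have h2 : IsClosed {v : H | ⟪b, v⟫_ℝ ≤ -1} := isClosed_le (by fun_prop) (by fun_prop)
  exact h1.inter h2

omit [CompleteSpace H] in
theorem Cab_convex (a b : H) : Convex ℝ (Cab a b) := by
  intro x hx y hy s t hs ht hst
  simp only [Cab, mem_setOf_eq, inner_add_right, inner_smul_right] at *
  constructor
  · nlinarith [mul_le_mul_of_nonneg_left hx.1 hs, mul_le_mul_of_nonneg_left hy.1 ht]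
  · nlinarith [mul_le_mul_of_nonneg_left hx.2 hs, mul_le_mul_of_nonneg_left hy.2 ht]

theorem exists_min {a b : H} (hne : (Cab a b).Nonempty) :
    ∃ w ∈ Cab a b, ∀ v ∈ Cab a b, ‖v - w‖ ^ 2 ≤ ‖v‖ ^ 2 - ‖w‖ ^ 2 := by
  obtain ⟨w, hw, hmin⟩ := exists_norm_eq_iInf_of_complete_convex hne
    (Cab_closed a b).isComplete (Cab_convex a b) 0
  refine ⟨w, hw, fun v hv => ?_⟩
  have h1 := (norm_eq_iInf_iff_real_inner_le_zero (Cab_convex a b) hw).mp hmin v hv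
  have h2 : ‖v - w‖ ^ 2 = ‖v‖ ^ 2 - ‖w‖ ^ 2 - 2 * ⟪w, v - w⟫_ℝ := by
    rw [norm_sub_sq_real, inner_sub_right, real_inner_self_eq_norm_sq, real_inner_comm]
    ring
  rw [zero_sub, inner_neg_left] at h1
  linarith

theorem compactness {A B : Set H} (hA : IsCompact A) (hB : IsCompact B) {c : ℝ} (hc : 0 ≤ c)
    (hcm : ∀ a ∈ A, ∀ b ∈ B, ∀ w ∈ Cab a b, c ≤ ‖w‖) {δ : ℕ → ℝ} (hδ : Tendsto δ atTop (𝓝 0))
    {v : ℕ → H} {a b : ℕ → H} (ha : ∀ j, a j ∈ A) (hb : ∀ j, b j ∈ B)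
    (h1 : ∀ j, 1 - δ j ≤ ⟪a j, v j⟫_ℝ) (h2 : ∀ j, ⟪b j, v j⟫_ℝ ≤ -1 + δ j)
    (h3 : ∀ j, ‖v j‖ ^ 2 ≤ c ^ 2 + δ j) :
    ∃ a' ∈ A, ∃ b' ∈ B, ∃ w ∈ Cab a' b', ‖w‖ = c ∧
      ∃ φ : ℕ → ℕ, StrictMono φ ∧ Tendsto (v ∘ φ) atTop (𝓝 w) := by
  obtain ⟨⟨a', b'⟩, hab, φ, hφ, hlim⟩ := (hA.prod hB).tendsto_subseq
    (x := fun j => (a j, b j)) (fun j => ⟨ha j, hb j⟩)
  have hla : Tendsto (fun j => a (φ j)) atTop (𝓝 a') := (continuous_fst.tendsto _).comp hlim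
  have hlb : Tendsto (fun j => b (φ j)) atTop (𝓝 b') := (continuous_snd.tendsto _).comp hlim
  have hδ' : Tendsto (fun j => δ (φ j)) atTop (𝓝 0) := hδ.comp hφ.tendsto_atTop
  set e : ℕ → ℝ := fun j => δ (φ j) + (‖a' - a (φ j)‖ + ‖b' - b (φ j)‖) * (c + 1) with he
  have hna : Tendsto (fun j => ‖a' - a (φ j)‖) atTop (𝓝 0) := by
    have := (hla.const_sub a').norm
    simpa using this
  have hnb : Tendsto (fun j => ‖b' - b (φ j)‖) atTop (𝓝 0) := by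
    have := (hlb.const_sub b').norm
    simpa using this
  have hlime : Tendsto e atTop (𝓝 0) := by
    have := hδ'.add ((hna.add hnb).mul_const (c + 1))
    simpa [he] using this
  have hev1 : ∀ᶠ j in atTop, δ (φ j) < 1 := hδ'.eventually_lt_const (by norm_num)
  have hev2 : ∀ᶠ j in atTop, e j < 1 := hlime.eventually_lt_const (by norm_num)
  have hmem : ∀ᶠ j in atTop, (1 - e j)⁻¹ • v (φ j) ∈ Cab a' b' := by
    filter_upwards [hev1, hev2] with j hj1 hj2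
    have hn : ‖v (φ j)‖ ≤ c + 1 := by
      have := h3 (φ j)
      nlinarith [norm_nonneg (v (φ j))]
    have hpos : 0 < 1 - e j := by linarith
    have i1 : 1 - e j ≤ ⟪a', v (φ j)⟫_ℝ := by
      have k1 : ⟪a (φ j) - a', v (φ j)⟫_ℝ ≤ ‖a (φ j) - a'‖ * ‖v (φ j)‖ := real_inner_le_norm _ _
      have k2 : ‖a (φ j) - a'‖ * ‖v (φ j)‖ ≤ ‖a' - a (φ j)‖ * (c + 1) := by
        rw [norm_sub_rev]; exact mul_le_mul_of_nonneg_left hn (norm_nonneg _)
      rw [inner_sub_left] at k1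
      have k3 := h1 (φ j)
      have k4 : 0 ≤ ‖b' - b (φ j)‖ * (c + 1) := by positivity
      simp only [he]
      linarith
    have i2 : ⟪b', v (φ j)⟫_ℝ ≤ -(1 - e j) := by
      have k1 : ⟪b' - b (φ j), v (φ j)⟫_ℝ ≤ ‖b' - b (φ j)‖ * ‖v (φ j)‖ := real_inner_le_norm _ _
      have k2 : ‖b' - b (φ j)‖ * ‖v (φ j)‖ ≤ ‖b' - b (φ j)‖ * (c + 1) :=
        mul_le_mul_of_nonneg_left hn (norm_nonneg _)
      rw [inner_sub_left] at k1
      have k3 := h2 (φ j)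
      have k4 : 0 ≤ ‖a' - a (φ j)‖ * (c + 1) := by positivity
      simp only [he]
      linarith
    simp only [Cab, mem_setOf_eq, inner_smul_right]
    constructor
    · rw [← div_eq_inv_mul, le_div_iff₀ hpos]; linarith
    · rw [← div_eq_inv_mul, div_le_iff₀ hpos]; linarith
  obtain ⟨w, hw, hmin⟩ := exists_min (hmem.exists.elim (fun j hj => ⟨_, hj⟩))
  have hcw : c ≤ ‖w‖ := hcm a' hab.1 b' hab.2 w hw
  -- v' → w
  have hv' : Tendsto (fun j => (1 - e j)⁻¹ • v (φ j)) atTop (𝓝 w) := by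
    rw [tendsto_iff_norm_sub_tendsto_zero]
    have hsq : Tendsto (fun j => ‖(1 - e j)⁻¹ • v (φ j) - w‖ ^ 2) atTop (𝓝 0) := by
      have hup : Tendsto (fun j => ((1 - e j)⁻¹) ^ 2 * (c ^ 2 + δ (φ j)) - c ^ 2) atTop (𝓝 0) := by
        have k1 : Tendsto (fun j => (1 - e j)⁻¹) atTop (𝓝 ((1 - 0)⁻¹)) :=
          (hlime.const_sub 1).inv₀ (by norm_num)
        have k2 := ((k1.pow 2).mul (hδ'.const_add (c ^ 2))).sub_const (c ^ 2)
        simpa using k2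
      refine tendsto_of_tendsto_of_tendsto_of_le_of_le' tendsto_const_nhds hup
        (Eventually.of_forall fun j => by positivity) ?_
      filter_upwards [hmem] with j hj
      have k1 := hmin _ hj
      have k2 : ‖(1 - e j)⁻¹ • v (φ j)‖ ^ 2 = ((1 - e j)⁻¹) ^ 2 * ‖v (φ j)‖ ^ 2 := by
        rw [norm_smul, mul_pow, Real.norm_eq_abs, sq_abs]
      have k3 : ((1 - e j)⁻¹) ^ 2 * ‖v (φ j)‖ ^ 2 ≤ ((1 - e j)⁻¹) ^ 2 * (c ^ 2 + δ (φ j)) :=
        mul_le_mul_of_nonneg_left (h3 _) (by positivity)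
      have k4 : c ^ 2 ≤ ‖w‖ ^ 2 := by nlinarith
      linarith
    have := hsq.sqrt
    simpa [Real.sqrt_sq (norm_nonneg _)] using this
  have hv : Tendsto (fun j => v (φ j)) atTop (𝓝 w) := by
    have k1 := (hlime.const_sub 1).smul hv'
    simp only [sub_zero, one_smul] at k1
    refine k1.congr' ?_
    filter_upwards [hev2] with j hj
    rw [smul_smul, mul_inv_cancel₀ (by linarith), one_smul]
  have hwc : ‖w‖ ≤ c := by
    have k1 : Tendsto (fun j => ‖v (φ j)‖ ^ 2) atTop (𝓝 (‖w‖ ^ 2)) := (hv.norm).pow 2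
    have k2 : Tendsto (fun j => c ^ 2 + δ (φ j)) atTop (𝓝 (c ^ 2 + 0)) := hδ'.const_add _
    have k3 := le_of_tendsto_of_tendsto' k1 k2 (fun j => h3 _)
    rw [add_zero] at k3
    exact le_of_sq_le_sq k3 hc
  exact ⟨a', hab.1, b', hab.2, w, hw, le_antisymm hwc hcw, φ, hφ, hv⟩

end A5aux

open A5aux in
theorem st_A5 : ST_A5 := by
  intro H _ _ _ X _ _ κ W1 W2 hW1 hW2 hk1 hk2 hne
  have hA : IsCompact (κ '' W1) := hW1.image_of_continuousOn hk1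
  have hB : IsCompact (κ '' W2) := hW2.image_of_continuousOn hk2
  have hfeas : ∀ a ∈ κ '' W1, ∀ b ∈ κ '' W2, ∀ w ∈ Cab a b, w ∈ feas κ W1 W2 := by
    rintro _ ⟨x, hx, rfl⟩ _ ⟨y, hy, rfl⟩ w hw
    exact ⟨⟨x, hx, hw.1⟩, ⟨y, hy, hw.2⟩⟩
  have hδ0 : Tendsto (fun n : ℕ => (1 / ((n : ℝ) + 1))) atTop (𝓝 0) :=
    tendsto_one_div_add_atTop_nhds_zero_nat
  constructor
  · -- existence
    set S : Set ℝ := (fun v : H => ‖v‖) '' feas κ W1 W2 with hS
    have hSne : S.Nonempty := hne.image _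
    have hSbdd : BddBelow S := ⟨0, by rintro _ ⟨v, -, rfl⟩; exact norm_nonneg _⟩
    set c : ℝ := sInf S with hcdef
    have hc0 : 0 ≤ c := le_csInf hSne (by rintro _ ⟨v, -, rfl⟩; exact norm_nonneg _)
    have hcle : ∀ w ∈ feas κ W1 W2, c ≤ ‖w‖ := fun w hw => csInf_le hSbdd ⟨w, hw, rfl⟩
    have hex : ∀ j : ℕ, ∃ v ∈ feas κ W1 W2, ‖v‖ ^ 2 ≤ c ^ 2 + 1 / ((j : ℝ) + 1) := by
      intro j
      have hpos : (0 : ℝ) < 1 / ((j : ℝ) + 1) := by positivity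
      have hlt : c < Real.sqrt (c ^ 2 + 1 / ((j : ℝ) + 1)) := by
        apply Real.lt_sqrt_of_sq_lt; linarith
      obtain ⟨_, ⟨v, hv, rfl⟩, hvlt⟩ := exists_lt_of_csInf_lt hSne hlt
      refine ⟨v, hv, ?_⟩
      have h1 : ‖v‖ ^ 2 ≤ Real.sqrt (c ^ 2 + 1 / ((j : ℝ) + 1)) ^ 2 :=
        pow_le_pow_left₀ (norm_nonneg _) hvlt.le 2
      rwa [Real.sq_sqrt (by positivity)] at h1
    choose v hv hvn using hex
    choose x hx hx1 using fun j => (hv j).1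
    choose y hy hy1 using fun j => (hv j).2
    obtain ⟨a', ha', b', hb', w, hw, hwn, -⟩ := compactness hA hB hc0
      (fun a ha b hb w hw => hcle w (hfeas a ha b hb w hw)) hδ0 (v := v)
      (a := fun j => κ (x j)) (b := fun j => κ (y j))
      (fun j => ⟨x j, hx j, rfl⟩) (fun j => ⟨y j, hy j, rfl⟩)
      (fun j => by
        have : (0 : ℝ) < 1 / ((j : ℝ) + 1) := by positivity
        linarith [hx1 j])
      (fun j => by
        have : (0 : ℝ) < 1 / ((j : ℝ) + 1) := by positivity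
        linarith [hy1 j]) hvn
    exact ⟨w, hfeas a' ha' b' hb' w hw, fun u hu => by rw [hwn]; exact hcle u hu⟩
  · intro v0 hv0 ε hε
    by_contra hcon
    push Not at hcon
    have hex : ∀ j : ℕ, ∃ v : H, (∃ x ∈ W1, 1 - 1 / ((j : ℝ) + 1) ≤ ⟪κ x, v⟫_ℝ) ∧
        (∃ x ∈ W2, ⟪κ x, v⟫_ℝ ≤ -1 + 1 / ((j : ℝ) + 1)) ∧
        ‖v‖ ^ 2 / 2 ≤ ‖v0‖ ^ 2 / 2 + 1 / ((j : ℝ) + 1) ∧ ∀ m ∈ MM κ W1 W2, ε ≤ ‖v - m‖ := by
      intro j
      obtain ⟨v, h1, h2, h3, h4⟩ := hcon (1 / ((j : ℝ) + 1)) (by positivity)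
      exact ⟨v, h1, h2, h3, h4⟩
    choose v h1 h2 h3 h4 using hex
    choose x hx hx1 using h1
    choose y hy hy1 using h2
    have hδ2 : Tendsto (fun n : ℕ => 2 * (1 / ((n : ℝ) + 1))) atTop (𝓝 0) := by
      have := hδ0.const_mul 2
      simpa using this
    obtain ⟨a', ha', b', hb', w, hw, hwn, φ, hφ, hlim⟩ := compactness hA hB (norm_nonneg v0)
      (fun a ha b hb w hw => hv0.2 w (hfeas a ha b hb w hw)) hδ2 (v := v)
      (a := fun j => κ (x j)) (b := fun j => κ (y j))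
      (fun j => ⟨x j, hx j, rfl⟩) (fun j => ⟨y j, hy j, rfl⟩)
      (fun j => by
        have : (0 : ℝ) < 1 / ((j : ℝ) + 1) := by positivity
        linarith [hx1 j])
      (fun j => by
        have : (0 : ℝ) < 1 / ((j : ℝ) + 1) := by positivity
        linarith [hy1 j])
      (fun j => by linarith [h3 j])
    have hwM : w ∈ MM κ W1 W2 := ⟨hfeas a' ha' b' hb' w hw, fun u hu => by
      rw [hwn]; exact hv0.2 u hu⟩
    have hn : Tendsto (fun j => ‖(v ∘ φ) j - w‖) atTop (𝓝 0) :=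
      tendsto_iff_norm_sub_tendsto_zero.mp hlim
    obtain ⟨j, hj⟩ := (hn.eventually_lt_const hε).exists
    exact absurd (h4 (φ j) w hwM) (not_le.mpr hj)

end LEP
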